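import Mathlib
import Pool.Agent.H744R2.KZ.Props

/-!
Task L_struct of the project on derivations of C*-algebras: the local structure theorem, from
the construction of families of partial isometries below an abelian projection.
-/

open scoped ComplexOrder InnerProductSpace ComplexConjugate Topology
open Finset Filter

namespace H744R2.KZ

open H759R2.Kad

universe u

theorem prove_L_struct (h1 : L_fam.{u}) (h2 : L_fin.{u}) (h3 : L_inf.{u}) : L_struct.{u} := by
  intro H _ _ _ M w hw hw0
  by_cases hna : NA M w
  · exact ⟨w, hw, hw0, hw.1.2, Or.inr (Or.inl hna)⟩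
  · unfold NA at hna
    push Not at hna
    obtain ⟨e, heM, hwe, hAB, he0⟩ := hna
    obtain ⟨z, hz, hz0, hwz, I, f, hf1, hf2, hf3, hf4, hf5⟩ := h1 H M w e hw hAB he0 hwe
    refine ⟨z, hz, hz0, hwz, ?_⟩
    rcases finite_or_infinite I with hI | hI
    · exact Or.inl (h2 H M z e hz hAB I f hf1 hf2 hf3 hf4 hf5)
    · exact Or.inr (Or.inr (h3 H M z e hz heM hAB.2.1 I f hf1 hf2 hf3 hf4 hf5))

end H744R2.KZ
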